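import Pool.Agent.Helper34.QA.Stmts

/-!
# Row FNL: the approximation property gives continuous affine approximations
-/

set_option autoImplicit false

namespace Pool.Agent.Helper85.QA

open Filter Topology MeasureTheory Pool.Agent.Helper34.QA Pool.Agent.Helper31.BQ
open scoped NNReal

universe u v

/-- the continuous affine maps -/
def Saff {V : Type u} [AddCommGroup V] [Module ℝ V] [TopologicalSpace V] (X : Set V)
    (E : Type v) [NormedAddCommGroup E] [NormedSpace ℝ E] : Submodule ℝ C(X, E) where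
  carrier := {a | IsAffineOn X (fun x => a x)}
  zero_mem' := by
    intro x y z t _ _ _
    simp
  add_mem' := by
    intro a b ha hb x y z t h0 h1 h
    have e1 := ha x y z t h0 h1 h
    have e2 := hb x y z t h0 h1 h
    simp only at e1 e2
    simp only [ContinuousMap.add_apply, e1, e2, smul_add]
    abel
  smul_mem' := by
    intro c a ha x y z t h0 h1 h
    have e1 := ha x y z t h0 h1 h
    simp only at e1
    simp only [ContinuousMap.smul_apply, e1, smul_add, smul_comm c]

theorem st_FNL (h1 : ST_BDD.{u, v}) (h2 : ST_TRU.{u, v}) (h3 : ST_VAR.{u, v})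
    (h4 : ST_FIN.{u, v}) (h5 : ST_LC.{u, v}) (h6 : ST_APR.{u, v}) (h7 : ST_MAZ.{max u v}) :
    ST_FNL.{u, v} := by
  intro E _ _ hAP V _ _ _ _ _ _ _ X hX hc f ha hf
  have : CompactSpace X := isCompact_iff_compactSpace.1 hX
  letI : MeasurableSpace X := borel X
  have : BorelSpace X := ⟨rfl⟩
  obtain ⟨R, hR0, hR⟩ := h1 V X hX hc E f ha hf
  obtain ⟨F, hF, hFl⟩ := h2 X E f R hR0 hR hf
  have key : ∀ Φ : C(X, E) →L[ℝ] ℝ, (∀ s ∈ Saff X E, Φ s = 0) →
      Tendsto (fun k => Φ (F k)) atTop (𝓝 0) := by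
    intro Φ h0
    obtain ⟨ν, hν1, -, hν⟩ := h3 X E Φ
    exact h6 X E hAP ν hν1 Φ hν F (h5 X E ν hν1 f F R hF hFl)
      (fun T hT => h4 V X hX hc E Φ (fun a ha => h0 a ha) f F R ha hF hFl T hT)
  have hm := fun n : ℕ => h7 C(X, E) (Saff X E) F key n (1 / ((n : ℝ) + 1)) (by positivity)
  choose y hy a haS hya using hm
  refine ⟨fun n x => a n x, fun n => ⟨(a n).continuous, haS n⟩, fun x => ?_⟩
  rw [tendsto_iff_norm_sub_tendsto_zero]
  rw [Metric.tendsto_atTop]
  intro ε hε
  have hx := hFl x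
  rw [Metric.tendsto_atTop] at hx
  obtain ⟨N1, hN1⟩ := hx (ε / 3) (by positivity)
  obtain ⟨N2, hN2⟩ := exists_nat_gt (3 / ε)
  refine ⟨max N1 N2, fun n hn => ?_⟩
  have hn1 : N1 ≤ n := (le_max_left _ _).trans hn
  have hn2 : N2 ≤ n := (le_max_right _ _).trans hn
  rw [Real.dist_eq, sub_zero, abs_norm]
  have e1 : ‖y n x - f x‖ ≤ ε / 3 := by
    have hsub : {z : C(X, E) | ∃ k ≥ n, z = F k} ⊆ {g : C(X, E) | ‖g x - f x‖ ≤ ε / 3} := by
      rintro _ ⟨k, hk, rfl⟩
      have := hN1 k (hn1.trans hk)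
      rw [dist_eq_norm] at this
      exact this.le
    have hconv : Convex ℝ {g : C(X, E) | ‖g x - f x‖ ≤ ε / 3} := by
      intro g hg g' hg' s t hs ht hst
      have hg1 : ‖g x - f x‖ ≤ ε / 3 := hg
      have hg2 : ‖g' x - f x‖ ≤ ε / 3 := hg'
      show ‖(s • g + t • g') x - f x‖ ≤ ε / 3
      have e : (s • g + t • g') x - f x = s • (g x - f x) + t • (g' x - f x) := by
        rw [ContinuousMap.add_apply, ContinuousMap.smul_apply, ContinuousMap.smul_apply, smul_sub,
          smul_sub]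
        have : f x = s • f x + t • f x := by rw [← add_smul, hst, one_smul]
        nth_rewrite 1 [this]
        abel
      rw [e]
      refine (norm_add_le _ _).trans ?_
      rw [norm_smul, norm_smul, Real.norm_of_nonneg hs, Real.norm_of_nonneg ht]
      calc s * ‖g x - f x‖ + t * ‖g' x - f x‖ ≤ s * (ε / 3) + t * (ε / 3) := by gcongr
        _ = ε / 3 := by rw [← add_mul, hst, one_mul]
    exact convexHull_min hsub hconv (hy n)
  have e2 : ‖y n x - a n x‖ < ε / 3 := by
    have h8 : ‖(y n - a n) x‖ ≤ ‖y n - a n‖ := ContinuousMap.norm_coe_le_norm _ x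
    rw [ContinuousMap.sub_apply] at h8
    refine lt_of_le_of_lt h8 ((hya n).trans_le ?_)
    have h9 : (N2 : ℝ) ≤ n := by exact_mod_cast hn2
    rw [div_lt_iff₀ hε] at hN2
    rw [div_le_div_iff₀ (by positivity) (by norm_num)]
    nlinarith
  have e3 : a n x - f x = (y n x - f x) - (y n x - a n x) := by abel
  show ‖a n x - f x‖ < ε
  rw [e3]
  have := norm_sub_le (y n x - f x) (y n x - a n x)
  linarith

end Pool.Agent.Helper85.QA
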